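import Mathlib

set_option autoImplicit false

namespace Pool.Agent.Results.MP_148afe_an.Discontinuous

open MeasureTheory Filter Topology

/-- Euclidean space `ℝ^d`. -/
abbrev E (d : ℕ) : Type := EuclideanSpace ℝ (Fin d)

/-- A complex Radon measure on `ℝ^d`, presented as `dens · base`, where `base` is a positive
locally finite Borel measure and `dens` is a complex function which is locally integrable with
respect to `base`. -/
structure CRadon (d : ℕ) where
  /-- the positive measure -/
  base : Measure (E d)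
  /-- it is finite on compact sets -/
  locFin : IsLocallyFiniteMeasure base
  /-- the complex density -/
  dens : E d → ℂ
  /-- the density is locally integrable -/
  locInt : LocallyIntegrable dens base

/-- The total variation measure `|μ|` of `μ = dens · base`. -/
noncomputable def CRadon.tv {d : ℕ} (μ : CRadon d) : Measure (E d) :=
  μ.base.withDensity (fun x => ‖μ.dens x‖ₑ)

/-- The value `μ(f) = ∫ f dμ`. -/
noncomputable def CRadon.integral {d : ℕ} (μ : CRadon d) (f : E d → ℂ) : ℂ :=
  ∫ x, f x * μ.dens x ∂μ.base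

/-- The norm `‖μ‖_K = sup_x |μ|(x + K)`, with values in `[0, ∞]`. -/
noncomputable def CRadon.normK {d : ℕ} (μ : CRadon d) (K : Set (E d)) : ENNReal :=
  ⨆ x : E d, μ.tv ((fun y => x + y) '' K)

/-- `f ∈ C_c(ℝ^d)`. -/
def IsCc {d : ℕ} (f : E d → ℂ) : Prop := Continuous f ∧ HasCompactSupport f

/-- The convolution `(f * h)(x) = ∫ f(t) h(x - t) dt`. -/
noncomputable def conv {d : ℕ} (f h : E d → ℂ) (x : E d) : ℂ := ∫ t, f t * h (x - t)

/-- `f~(x)` is the complex conjugate of `f(-x)`. -/
noncomputable def tilde {d : ℕ} (f : E d → ℂ) (x : E d) : ℂ := (starRingEnd ℂ) (f (-x))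

/-- `f̌(y) = ∫ f(x) exp(2 π i x·y) dx`. -/
noncomputable def check {d : ℕ} (f : E d → ℂ) (y : E d) : ℂ :=
  ∫ x, f x * Complex.exp (2 * (Real.pi : ℂ) * Complex.I * ((inner ℝ y x : ℝ) : ℂ))

/-- `μ'` is the Fourier transform of `μ`: for every `f ∈ C_c(ℝ^d)` the function `f̌` lies in
`L²(|μ'|)` and `μ(f * f~) = μ'(|f̌|²)`. -/
def IsFourierTransform {d : ℕ} (μ μ' : CRadon d) : Prop :=
  ∀ f : E d → ℂ, IsCc f → MemLp (check f) 2 μ'.tv ∧
    μ.integral (conv f (tilde f)) = μ'.integral (fun y => ((‖check f y‖ ^ 2 : ℝ) : ℂ))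

/-! ### Measures attached to finite sequences of coefficients -/

section poly

variable {d : ℕ} (i : Fin d) (δ : ℝ) (N : ℕ) (c : ℕ → ℂ)

/-- The point `k δ e_i`. -/
noncomputable def pt (k : ℕ) : E d := EuclideanSpace.single i ((k : ℝ) * δ)

/-- The trigonometric polynomial `∑_{k < N} c_k exp(2 π i k δ x_i)`. -/
noncomputable def trig (x : E d) : ℂ :=
  ∑ k ∈ Finset.range N, c k *
    Complex.exp (2 * (Real.pi : ℂ) * Complex.I * ((inner ℝ (pt i δ k) x : ℝ) : ℂ))

theorem continuous_trig : Continuous (trig i δ N c) := by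
  unfold trig
  fun_prop

/-- The absolutely continuous measure with this density. -/
noncomputable def muOf : CRadon d where
  base := volume
  locFin := inferInstance
  dens := trig i δ N c
  locInt := (continuous_trig i δ N c).locallyIntegrable

/-- The density of the discrete measure. -/
noncomputable def ddens (x : E d) : ℂ :=
  ∑ k ∈ Finset.range N, if x = pt i δ k then c k else 0

/-- The base of the discrete measure. -/
noncomputable def dbase : Measure (E d) :=
  ∑ k ∈ Finset.range N, Measure.dirac (pt i δ k)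

theorem integrable_dbase (f : E d → ℂ) : Integrable f (dbase i δ N) := by
  unfold dbase
  rw [integrable_finsetSum_measure]
  intro k _
  refine ⟨(aemeasurable_dirac).aestronglyMeasurable, ?_⟩
  rw [hasFiniteIntegral_iff_enorm, lintegral_dirac]
  exact enorm_lt_top

instance : IsFiniteMeasure (dbase i δ N) := by
  unfold dbase
  infer_instance

/-- The discrete measure `∑_{k < N} c_k δ_{k δ e_i}`. -/
noncomputable def hatOf : CRadon d where
  base := dbase i δ N
  locFin := inferInstance
  dens := ddens i δ N c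
  locInt := (integrable_dbase i δ N _).locallyIntegrable

theorem pt_injective (hδ : 0 < δ) : Function.Injective (pt i δ) := by
  intro a b h
  have h1 : (pt i δ a) i = (pt i δ b) i := by rw [h]
  unfold pt at h1
  simp only [PiLp.single_apply, if_true] at h1
  have h2 : (a : ℝ) = b := mul_right_cancel₀ hδ.ne' h1
  exact_mod_cast h2

theorem hatOf_integral (hδ : 0 < δ) (f : E d → ℂ) : (hatOf i δ N c).integral f =
    ∑ k ∈ Finset.range N, f (pt i δ k) * c k := by
  unfold CRadon.integral hatOf
  simp only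
  unfold dbase
  rw [integral_finsetSum_measure]
  · refine Finset.sum_congr rfl (fun k hk => ?_)
    rw [integral_dirac]
    congr 1
    unfold ddens
    rw [Finset.sum_eq_single_of_mem k hk]
    · simp
    · intro b _ hb
      rw [if_neg]
      intro h
      exact hb (pt_injective i δ hδ h).symm
  · intro k hk
    have h1 := integrable_dbase i δ N (fun x => f x * ddens i δ N c x)
    unfold dbase at h1
    rw [integrable_finsetSum_measure] at h1
    exact h1 k hk

theorem integral_trig (g : E d → ℂ) (hg : Integrable g) :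
    (muOf i δ N c).integral g = ∑ k ∈ Finset.range N, check g (pt i δ k) * c k := by
  unfold CRadon.integral muOf
  simp only
  have h1 : ∀ x : E d, g x * trig i δ N c x = ∑ k ∈ Finset.range N,
      (g x * Complex.exp (2 * (Real.pi : ℂ) * Complex.I * ((inner ℝ (pt i δ k) x : ℝ) : ℂ)))
        * c k := by
    intro x
    unfold trig
    rw [Finset.mul_sum]
    exact Finset.sum_congr rfl (fun k _ => by ring)
  simp_rw [h1]
  rw [integral_finsetSum]
  · refine Finset.sum_congr rfl (fun k _ => ?_)
    rw [integral_mul_const]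
    rfl
  · intro k _
    refine Integrable.mul_const ?_ _
    refine hg.mul_bdd (c := 1) ?_ ?_
    · refine Continuous.aestronglyMeasurable ?_
      fun_prop
    · refine Eventually.of_forall (fun x => ?_)
      have : 2 * (Real.pi : ℂ) * Complex.I * ((inner ℝ (pt i δ k) x : ℝ) : ℂ) =
          ((2 * Real.pi * inner ℝ (pt i δ k) x : ℝ) : ℂ) * Complex.I := by
        push_cast; ring
      rw [this, Complex.norm_exp_ofReal_mul_I]

theorem tv_le (C : ℝ) (hC : ∀ x, ‖ddens i δ N c x‖ ≤ C) :
    (hatOf i δ N c).tv ≤ ENNReal.ofReal C • dbase i δ N := by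
  unfold CRadon.tv hatOf
  simp only
  rw [← withDensity_const]
  refine withDensity_mono (Eventually.of_forall (fun x => ?_))
  simp only
  rw [← ofReal_norm]
  exact ENNReal.ofReal_le_ofReal (hC x)

/-- The character factor. -/
noncomputable def ch (y x : E d) : ℂ :=
  Complex.exp (2 * (Real.pi : ℂ) * Complex.I * ((inner ℝ y x : ℝ) : ℂ))

theorem norm_ch (y x : E d) : ‖ch y x‖ = 1 := by
  unfold ch
  have : 2 * (Real.pi : ℂ) * Complex.I * ((inner ℝ y x : ℝ) : ℂ) =
      ((2 * Real.pi * inner ℝ y x : ℝ) : ℂ) * Complex.I := by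
    push_cast; ring
  rw [this, Complex.norm_exp_ofReal_mul_I]

theorem continuous_ch (y : E d) : Continuous (ch y) := by
  unfold ch
  fun_prop

theorem integrable_mul_ch (f : E d → ℂ) (hf : Integrable f) (y : E d) :
    Integrable (fun x => f x * ch y x) := by
  refine hf.mul_bdd (c := 1) (continuous_ch y).aestronglyMeasurable ?_
  exact Eventually.of_forall (fun x => (norm_ch y x).le)

theorem check_tilde (f : E d → ℂ) (y : E d) :
    check (tilde f) y = (starRingEnd ℂ) (check f y) := by
  unfold check tilde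
  rw [← integral_conj, ← integral_neg_eq_self]
  refine integral_congr_ae (Eventually.of_forall (fun x => ?_))
  simp only
  rw [neg_neg, map_mul]
  congr 1
  rw [← Complex.exp_conj, inner_neg_right]
  congr 1
  simp only [map_mul, Complex.conj_I, Complex.conj_ofReal, map_ofNat]
  push_cast
  ring

theorem tilde_isCc (f : E d → ℂ) (hf : IsCc f) : IsCc (tilde f) := by
  constructor
  · unfold tilde
    exact Complex.continuous_conj.comp (hf.1.comp continuous_neg)
  · have h1 : HasCompactSupport (fun x => f (-x)) :=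
      hf.2.comp_homeomorph (Homeomorph.neg (E d))
    exact h1.comp_left (g := starRingEnd ℂ) (map_zero _)

theorem conv_eq (f h : E d → ℂ) :
    conv f h = MeasureTheory.convolution f h (ContinuousLinearMap.mul ℝ ℂ) volume := by
  funext x
  rfl

theorem integrable_conv (f h : E d → ℂ) (hf : Integrable f) (hh : Integrable h) :
    Integrable (conv f h) := by
  rw [conv_eq]
  exact Integrable.integrable_convolution _ hf hh

theorem check_conv (f h : E d → ℂ) (hf : Integrable f) (hh : Integrable h) (y : E d) :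
    check (conv f h) y = check f y * check h y := by
  have h1 : ∀ x, conv f h x * ch y x =
      conv (fun t => f t * ch y t) (fun t => h t * ch y t) x := by
    intro x
    unfold conv
    rw [← integral_mul_const]
    refine integral_congr_ae (Eventually.of_forall (fun t => ?_))
    simp only
    have : ch y x = ch y t * ch y (x - t) := by
      unfold ch
      rw [← Complex.exp_add, inner_sub_right]
      congr 1
      push_cast
      ring
    rw [this]
    ring
  have h2 : check (conv f h) y = ∫ x, conv f h x * ch y x := rfl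
  rw [h2]
  simp_rw [h1]
  rw [conv_eq]
  rw [integral_convolution (L := ContinuousLinearMap.mul ℝ ℂ) (integrable_mul_ch f hf y)
    (integrable_mul_ch h hh y)]
  rfl

theorem isFourierTransform (hδ : 0 < δ) :
    IsFourierTransform (muOf i δ N c) (hatOf i δ N c) := by
  intro f hf
  have hint : Integrable f := hf.1.integrable_of_hasCompactSupport hf.2
  have hint2 : Integrable (tilde f) :=
    (tilde_isCc f hf).1.integrable_of_hasCompactSupport (tilde_isCc f hf).2
  constructor
  · have h1 : ∀ x, ‖ddens i δ N c x‖ ≤ ∑ k ∈ Finset.range N, ‖c k‖ := by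
      intro x
      unfold ddens
      refine (norm_sum_le _ _).trans (Finset.sum_le_sum (fun k _ => ?_))
      split_ifs
      · exact le_rfl
      · simp
    have h2 := tv_le i δ N c _ h1
    have h3 : MemLp (check f) 2 (dbase i δ N) := by
      rw [memLp_two_iff_integrable_sq_norm (integrable_dbase i δ N _).aestronglyMeasurable]
      have h4 := (integrable_dbase i δ N (fun x => ((‖check f x‖ ^ 2 : ℝ) : ℂ))).re
      have h5 : (fun x => ‖check f x‖ ^ 2) =
          fun x => RCLike.re (((‖check f x‖ ^ 2 : ℝ) : ℂ)) := by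
        funext x
        exact (Complex.ofReal_re _).symm
      rw [h5]
      exact h4
    exact (h3.smul_measure ENNReal.ofReal_ne_top).mono_measure h2
  · rw [hatOf_integral i δ N c hδ, integral_trig i δ N c _ (integrable_conv _ _ hint hint2)]
    refine Finset.sum_congr rfl (fun k _ => ?_)
    rw [check_conv _ _ hint hint2, check_tilde, Complex.mul_conj, Complex.normSq_eq_norm_sq]

end poly

/-! ### Rudin-Shapiro coefficients -/

/-- The two Rudin-Shapiro coefficient sequences. -/
def rs : ℕ → (ℕ → ℝ) × (ℕ → ℝ)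
  | 0 => (fun _ => 1, fun _ => 1)
  | n + 1 => (fun k => if k < 2 ^ n then (rs n).1 k else (rs n).2 (k - 2 ^ n),
      fun k => if k < 2 ^ n then (rs n).1 k else -(rs n).2 (k - 2 ^ n))

theorem rs_sq (n : ℕ) : ∀ k, (rs n).1 k * (rs n).1 k = 1 ∧ (rs n).2 k * (rs n).2 k = 1 := by
  induction n with
  | zero => intro k; simp [rs]
  | succ n ih =>
    intro k
    unfold rs
    simp only
    split_ifs
    · exact ⟨(ih k).1, (ih k).1⟩
    · exact ⟨(ih _).2, by rw [neg_mul_neg]; exact (ih _).2⟩

theorem rs_norm (n : ℕ) (z : ℂ) (hz : ‖z‖ = 1) :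
    ‖∑ k ∈ Finset.range (2 ^ n), (((rs n).1 k : ℝ) : ℂ) * z ^ k‖ ^ 2 +
      ‖∑ k ∈ Finset.range (2 ^ n), (((rs n).2 k : ℝ) : ℂ) * z ^ k‖ ^ 2 = 2 ^ (n + 1) := by
  induction n with
  | zero => simp [rs]; norm_num
  | succ n ih =>
    obtain ⟨A, hA⟩ : ∃ A : ℂ, A = ∑ k ∈ Finset.range (2 ^ n), (((rs n).1 k : ℝ) : ℂ) * z ^ k :=
      ⟨_, rfl⟩
    obtain ⟨B, hB⟩ : ∃ B : ℂ, B = ∑ k ∈ Finset.range (2 ^ n), (((rs n).2 k : ℝ) : ℂ) * z ^ k :=
      ⟨_, rfl⟩
    rw [← hA, ← hB] at ih
    have h1 : ∑ k ∈ Finset.range (2 ^ (n + 1)), (((rs (n + 1)).1 k : ℝ) : ℂ) * z ^ k =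
        A + z ^ (2 ^ n) * B := by
      rw [pow_succ, mul_two, Finset.sum_range_add, hA, hB, Finset.mul_sum]
      congr 1
      · refine Finset.sum_congr rfl (fun k hk => ?_)
        rw [Finset.mem_range] at hk
        simp [rs, hk]
      · refine Finset.sum_congr rfl (fun k _ => ?_)
        simp only [rs]
        rw [if_neg (by omega), Nat.add_sub_cancel_left, pow_add]
        ring
    have h2 : ∑ k ∈ Finset.range (2 ^ (n + 1)), (((rs (n + 1)).2 k : ℝ) : ℂ) * z ^ k =
        A - z ^ (2 ^ n) * B := by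
      rw [pow_succ, mul_two, Finset.sum_range_add, hA, hB, Finset.mul_sum, sub_eq_add_neg,
        ← Finset.sum_neg_distrib]
      congr 1
      · refine Finset.sum_congr rfl (fun k hk => ?_)
        rw [Finset.mem_range] at hk
        simp [rs, hk]
      · refine Finset.sum_congr rfl (fun k _ => ?_)
        simp only [rs]
        rw [if_neg (by omega), Nat.add_sub_cancel_left, pow_add]
        push_cast
        ring
    rw [h1, h2]
    have h3 := parallelogram_law_with_norm ℝ A (z ^ (2 ^ n) * B)
    have h4 : ‖z ^ (2 ^ n) * B‖ = ‖B‖ := by rw [norm_mul, norm_pow, hz]; simp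
    rw [h4] at h3
    rw [pow_succ 2 (n + 1), ← ih]
    nlinarith [h3]

theorem rs_bound (m : ℕ) (z : ℂ) (hz : ‖z‖ = 1) :
    ‖∑ k ∈ Finset.range (2 ^ (2 * m)), (((rs (2 * m)).1 k : ℝ) : ℂ) * z ^ k‖ ≤ 2 ^ (m + 1) := by
  have h1 := rs_norm (2 * m) z hz
  have h2 : ‖∑ k ∈ Finset.range (2 ^ (2 * m)), (((rs (2 * m)).1 k : ℝ) : ℂ) * z ^ k‖ ^ 2 ≤
      (2 ^ (m + 1)) ^ 2 := by
    have h3 : ((2 : ℝ) ^ (m + 1)) ^ 2 = 2 * 2 ^ (2 * m + 1) := by
      rw [← pow_mul, show (m + 1) * 2 = 2 * m + 1 + 1 by ring, pow_succ 2 (2 * m + 1)]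
      ring
    rw [h3]
    have h4 : (0 : ℝ) < 2 ^ (2 * m + 1) := by positivity
    nlinarith [sq_nonneg (‖∑ k ∈ Finset.range (2 ^ (2 * m)),
      (((rs (2 * m)).2 k : ℝ) : ℂ) * z ^ k‖)]
  exact abs_le_of_sq_le_sq' h2 (by positivity) |>.2

/-- The scaled coefficients. -/
noncomputable def cf (m k : ℕ) : ℝ := (rs (2 * m)).1 k / ((m + 1) * 2 ^ (m + 1))

theorem trig_bound {d : ℕ} (i : Fin d) (δ : ℝ) (m : ℕ) (x : E d) :
    ‖trig i δ (2 ^ (2 * m)) (fun k => ((cf m k : ℝ) : ℂ)) x‖ ≤ 1 / (m + 1) := by
  have h1 : trig i δ (2 ^ (2 * m)) (fun k => ((cf m k : ℝ) : ℂ)) x =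
      (((1 / ((m + 1) * 2 ^ (m + 1)) : ℝ)) : ℂ) *
        ∑ k ∈ Finset.range (2 ^ (2 * m)), (((rs (2 * m)).1 k : ℝ) : ℂ) *
          (Complex.exp (((2 * Real.pi * (δ * x i) : ℝ) : ℂ) * Complex.I)) ^ k := by
    unfold trig cf
    rw [Finset.mul_sum]
    refine Finset.sum_congr rfl (fun k _ => ?_)
    have h2 : inner ℝ (pt i δ k) x = (k : ℝ) * δ * x i := by
      unfold pt
      rw [EuclideanSpace.inner_single_left]
      simp
    rw [h2, ← Complex.exp_nat_mul]
    have h3 : 2 * (Real.pi : ℂ) * Complex.I * (((k : ℝ) * δ * x i : ℝ) : ℂ) =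
        (k : ℂ) * (((2 * Real.pi * (δ * x i) : ℝ) : ℂ) * Complex.I) := by
      push_cast; ring
    rw [h3]
    push_cast
    ring
  rw [h1, norm_mul]
  have h5 : ‖((1 / ((m + 1) * 2 ^ (m + 1)) : ℝ) : ℂ)‖ = 1 / ((m + 1) * 2 ^ (m + 1)) := by
    rw [Complex.norm_real, Real.norm_eq_abs, abs_of_pos (by positivity)]
  rw [h5]
  have h6 := rs_bound m (Complex.exp (((2 * Real.pi * (δ * x i) : ℝ) : ℂ) * Complex.I))
    (Complex.norm_exp_ofReal_mul_I _)
  calc 1 / (((m : ℝ) + 1) * 2 ^ (m + 1)) * _ ≤ 1 / (((m : ℝ) + 1) * 2 ^ (m + 1)) * 2 ^ (m + 1) := by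
        gcongr
    _ = 1 / (m + 1) := by field_simp

/-- The Fourier transform is not continuous from the translation bounded Fourier transformable
measures with the norm `‖·‖_K` to the measures with the vague topology. -/
theorem result : ∀ d : ℕ, 1 ≤ d → ∀ K : Set (E d), IsCompact K → (interior K).Nonempty →
    ∃ μ μ' : ℕ → CRadon d, (∀ n, (μ n).normK K < ⊤ ∧ IsFourierTransform (μ n) (μ' n)) ∧
      Tendsto (fun n => (μ n).normK K) atTop (𝓝 0) ∧
      ¬ ∀ f : E d → ℂ, IsCc f → Tendsto (fun n => (μ' n).integral f) atTop (𝓝 0) := by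
  intro d hd K hK _
  obtain ⟨i, -⟩ : ∃ i : Fin d, i = ⟨0, hd⟩ := ⟨_, rfl⟩
  obtain ⟨δ, hδ⟩ : ∃ δ : ℕ → ℝ, δ = fun m => 1 / 2 ^ (2 * m) := ⟨_, rfl⟩
  have hδ0 : ∀ m, 0 < δ m := by intro m; rw [hδ]; positivity
  have hnorm : ∀ m, (muOf i (δ m) (2 ^ (2 * m)) (fun k => ((cf m k : ℝ) : ℂ))).normK K ≤
      ENNReal.ofReal (1 / (m + 1)) * volume K := by
    intro m
    unfold CRadon.normK
    refine iSup_le (fun x => ?_)
    have h1 : (muOf i (δ m) (2 ^ (2 * m)) (fun k => ((cf m k : ℝ) : ℂ))).tv ≤
        ENNReal.ofReal (1 / (m + 1)) • volume := by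
      unfold CRadon.tv muOf
      simp only
      rw [← withDensity_const]
      refine withDensity_mono (Eventually.of_forall (fun x => ?_))
      simp only
      rw [← ofReal_norm]
      exact ENNReal.ofReal_le_ofReal (trig_bound i (δ m) m x)
    refine (h1 _).trans ?_
    have h2 : volume ((fun y => x + y) '' K) = volume K := by
      rw [Set.image_add_left, measure_preimage_add]
    rw [Measure.smul_apply, smul_eq_mul, h2]
  refine ⟨fun m => muOf i (δ m) (2 ^ (2 * m)) (fun k => ((cf m k : ℝ) : ℂ)),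
    fun m => hatOf i (δ m) (2 ^ (2 * m)) (fun k => ((cf m k : ℝ) : ℂ)), ?_, ?_, ?_⟩
  · intro m
    refine ⟨lt_of_le_of_lt (hnorm m) ?_, isFourierTransform i (δ m) _ _ (hδ0 m)⟩
    exact ENNReal.mul_lt_top ENNReal.ofReal_lt_top hK.measure_lt_top
  · have h1 : Tendsto (fun m : ℕ => ENNReal.ofReal (1 / ((m : ℝ) + 1)) * volume K) atTop
        (𝓝 (ENNReal.ofReal 0 * volume K)) :=
      ENNReal.Tendsto.mul_const (ENNReal.tendsto_ofReal tendsto_one_div_add_atTop_nhds_zero_nat)
        (Or.inr hK.measure_lt_top.ne)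
    rw [ENNReal.ofReal_zero, zero_mul] at h1
    exact tendsto_of_tendsto_of_tendsto_of_le_of_le tendsto_const_nhds h1 (fun _ => bot_le)
      hnorm
  · intro hall
    -- the functionals
    obtain ⟨Λ, hΛ⟩ : ∃ Λ : ℕ → (BoundedContinuousFunction (E d) ℝ) →L[ℝ] ℝ, ∀ m g, Λ m g =
        ∑ k ∈ Finset.range (2 ^ (2 * m)), cf m k * g (pt i (δ m) k) := by
      refine ⟨fun m => ∑ k ∈ Finset.range (2 ^ (2 * m)), cf m k •
        BoundedContinuousFunction.evalCLM ℝ (pt i (δ m) k), ?_⟩
      intro m g
      simp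
    have hbdd : ∀ g : BoundedContinuousFunction (E d) ℝ, ∃ C, ∀ m, ‖Λ m g‖ ≤ C := by
      intro g
      obtain ⟨f, hf⟩ : ∃ f : E d → ℂ, f = fun x => ((max 0 (min 1 (2 - ‖x‖)) * g x : ℝ) : ℂ) :=
        ⟨_, rfl⟩
      have hfc : IsCc f := by
        constructor
        · rw [hf]
          fun_prop
        · refine HasCompactSupport.of_support_subset_isCompact
            (isCompact_closedBall (0 : E d) 2) ?_
          intro x hx
          rw [mem_closedBall_zero_iff]
          by_contra hlt
          push Not at hlt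
          apply hx
          rw [hf]
          simp only
          rw [max_eq_left ((min_le_right _ _).trans (by linarith))]
          simp
      have h1 := hall f hfc
      have h2 : ∀ m, (hatOf i (δ m) (2 ^ (2 * m)) (fun k => ((cf m k : ℝ) : ℂ))).integral f =
          ((Λ m g : ℝ) : ℂ) := by
        intro m
        rw [hatOf_integral i _ _ _ (hδ0 m), hΛ]
        push_cast
        refine Finset.sum_congr rfl (fun k hk => ?_)
        rw [Finset.mem_range] at hk
        have h3 : ‖pt i (δ m) k‖ ≤ 1 := by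
          unfold pt
          rw [PiLp.norm_single, Real.norm_eq_abs, abs_of_nonneg (by have := hδ0 m; positivity), hδ]
          simp only
          rw [mul_one_div, div_le_one (by positivity)]
          have : k ≤ 2 ^ (2 * m) := hk.le
          exact_mod_cast this
        rw [hf]
        simp only
        rw [min_eq_left (by linarith), max_eq_right (by norm_num)]
        push_cast
        ring
      simp_rw [h2] at h1
      have h4 : Tendsto (fun m => Λ m g) atTop (𝓝 0) := by
        have h5 := (Complex.continuous_re.tendsto 0).comp h1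
        have h6 : (Complex.re ∘ fun n => ((Λ n g : ℝ) : ℂ)) = fun m => Λ m g := by
          funext m
          exact Complex.ofReal_re _
        rw [h6] at h5
        simpa using h5
      obtain ⟨C, hC⟩ := (Metric.isBounded_range_of_tendsto _ h4).exists_norm_le
      exact ⟨C, fun m => hC _ ⟨m, rfl⟩⟩
    obtain ⟨C, hC⟩ := banach_steinhaus hbdd
    -- lower bounds for the norms
    have hlow : ∀ m : ℕ, (2 : ℝ) ^ m / (2 * (m + 1)) ≤ C := by
      intro m
      obtain ⟨e, he⟩ : ∃ e : Fin (2 ^ (2 * m)) → E d, e = fun k : Fin (2 ^ (2 * m)) =>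
          pt i (δ m) (k : ℕ) := ⟨_, rfl⟩
      have hemb : Topology.IsClosedEmbedding e := by
        refine Continuous.isClosedEmbedding continuous_of_discreteTopology ?_
        intro a b hab
        rw [he] at hab
        exact Fin.ext (pt_injective i (δ m) (hδ0 m) hab)
      obtain ⟨a, ha⟩ : ∃ a : BoundedContinuousFunction (Fin (2 ^ (2 * m))) ℝ,
          ∀ k, a k = (rs (2 * m)).1 k :=
        ⟨BoundedContinuousFunction.mkOfCompact
          ⟨fun k => (rs (2 * m)).1 k, continuous_of_discreteTopology⟩, fun _ => rfl⟩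
      have hna : ‖a‖ ≤ 1 := by
        rw [BoundedContinuousFunction.norm_le zero_le_one]
        intro k
        rw [ha, Real.norm_eq_abs]
        have := (rs_sq (2 * m) k).1
        exact abs_le_one_iff_mul_self_le_one.mpr this.le
      obtain ⟨g, hg1, hg2⟩ := BoundedContinuousFunction.exists_extension_norm_eq_of_isClosedEmbedding
        a hemb
      have h1 : Λ m g = 2 ^ m / (2 * (m + 1)) := by
        rw [hΛ]
        have h2 : ∀ k ∈ Finset.range (2 ^ (2 * m)), cf m k * g (pt i (δ m) k) =
            1 / ((m + 1) * 2 ^ (m + 1)) := by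
          intro k hk
          rw [Finset.mem_range] at hk
          have h3 : g (pt i (δ m) k) = (rs (2 * m)).1 k := by
            have := congrFun hg2 ⟨k, hk⟩
            rw [ha] at this
            rw [← this, he]
            rfl
          rw [h3]
          unfold cf
          have h4 := (rs_sq (2 * m) k).1
          rw [div_mul_eq_mul_div, h4]
        rw [Finset.sum_congr rfl h2, Finset.sum_const, Finset.card_range, nsmul_eq_mul]
        push_cast
        rw [two_mul m, pow_add, pow_succ]
        field_simp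
      have h5 := (Λ m).le_opNorm g
      rw [h1, Real.norm_eq_abs, abs_of_pos (by positivity)] at h5
      refine h5.trans ?_
      calc ‖Λ m‖ * ‖g‖ ≤ C * 1 := by
            refine mul_le_mul (hC m) (by rw [hg1]; exact hna) (norm_nonneg _) ?_
            exact (norm_nonneg _).trans (hC m)
        _ = C := mul_one C
    -- contradiction
    obtain ⟨j, hj⟩ := exists_nat_gt (4 * C)
    have h6 := hlow (2 * j)
    have h7 : ((j : ℝ) + 1) ≤ 2 ^ j := by
      have : j + 1 ≤ 2 ^ j := Nat.lt_two_pow_self
      exact_mod_cast this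
    rw [div_le_iff₀ (by positivity), pow_mul'] at h6
    have h8 : (0 : ℝ) ≤ j := Nat.cast_nonneg j
    push_cast at h6
    nlinarith

end Pool.Agent.Results.MP_148afe_an.Discontinuous
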